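import Pool.Agent.Helper87.D3.Rank

/-!
# Depth three: widths of the layers

One group has the widths `h^q, h, h^(q-1), h^2, .., h^q, 1` (inner layers), the edges alternate
`v, u, v, u, .., u, v`.
-/

set_option autoImplicit false

namespace Pool.Agent.Helper55.D3

open Finset Pool.Agent.Helper87.D3

/-- width of the layer `k` -/
def wdf (h q : ℕ) (k : ℕ) : ℕ :=
  if (k % (2 * q + 1)) % 2 = 0 then h ^ (q - (k % (2 * q + 1)) / 2)
  else h ^ ((k % (2 * q + 1) + 1) / 2)

/-- number of inner layers -/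
def L (q s : ℕ) : ℕ := (2 * q + 1) * s - 1

/-- widths of the inner layers -/
def wd (h q s : ℕ) : Fin (L q s) → ℕ := fun k => wdf h q k.val

/-- type of the edge `e`: `true` for a `u` edge -/
def ty (q : ℕ) (e : ℕ) : Bool := decide ((e % (2 * q + 1)) % 2 = 1)

/-- the `u` edges -/
def UE (q s : ℕ) : Finset ℕ := (range ((2 * q + 1) * s)).filter fun e => ty q e = true

/-- the `v` edges -/
def VE (q s : ℕ) : Finset ℕ := (range ((2 * q + 1) * s)).filter fun e => ty q e = false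

theorem sum_groups (f : ℕ → ℕ) (m s : ℕ) :
    ∑ k ∈ range (m * s), f (k % m) = s * ∑ k ∈ range m, f k := by
  induction s with
  | zero => simp
  | succ s ih =>
    rw [Nat.mul_succ, sum_range_add, ih, add_mul, one_mul]
    congr 1
    refine sum_congr rfl fun k hk => ?_
    rw [Nat.mul_add_mod, Nat.mod_eq_of_lt (mem_range.1 hk)]

theorem prod_groups (f : ℕ → ℕ) (m s : ℕ) :
    ∏ k ∈ range (m * s), f (k % m) = (∏ k ∈ range m, f k) ^ s := by
  induction s with
  | zero => simp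
  | succ s ih =>
    rw [Nat.mul_succ, prod_range_add, ih, pow_succ]
    congr 1
    refine prod_congr rfl fun k hk => ?_
    rw [Nat.mul_add_mod, Nat.mod_eq_of_lt (mem_range.1 hk)]

/-- width as a function of the position in the group -/
def gw (h q : ℕ) (j : ℕ) : ℕ := if j % 2 = 0 then h ^ (q - j / 2) else h ^ ((j + 1) / 2)

theorem wdf_eq (h q k : ℕ) : wdf h q k = gw h q (k % (2 * q + 1)) := rfl

theorem gw_even (h q i : ℕ) : gw h q (2 * i) = h ^ (q - i) := by
  unfold gw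
  rw [if_pos (by omega)]
  congr 2
  omega

theorem gw_odd (h q i : ℕ) : gw h q (2 * i + 1) = h ^ (i + 1) := by
  unfold gw
  rw [if_neg (by omega)]
  congr 1
  omega

theorem one_le_wdf {h : ℕ} (hh : 1 ≤ h) (q k : ℕ) : 1 ≤ wdf h q k := by
  unfold wdf
  split_ifs
  · exact Nat.one_le_pow _ _ hh
  · exact Nat.one_le_pow _ _ hh

/-- (W1) -/
theorem one_le_wd {h : ℕ} (hh : 1 ≤ h) (q s : ℕ) (k : Fin (L q s)) : 1 ≤ wd h q s k :=
  one_le_wdf hh q k.val

theorem prod_gw (h q m : ℕ) (hm : m ≤ q) :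
    ∏ j ∈ range (2 * m + 1), gw h q j = h ^ (q * (m + 1)) := by
  induction m with
  | zero =>
    have h1 := gw_even h q 0
    simpa using h1
  | succ m ih =>
    have h1 := gw_odd h q m
    have h2 := gw_even h q (m + 1)
    rw [show 2 * (m + 1) + 1 = (2 * m + 1) + 1 + 1 by ring, prod_range_succ, prod_range_succ,
      ih (by omega), h1, show 2 * m + 1 + 1 = 2 * (m + 1) by ring, h2, mul_assoc, ← pow_add,
      ← pow_add]
    congr 1
    have h3 : m + 1 + (q - (m + 1)) = q := by omega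
    rw [h3]
    ring

theorem sum_gw {h : ℕ} (hh : 2 ≤ h) (q m : ℕ) (hm : m ≤ q) :
    ∑ j ∈ range (2 * m + 1), gw h q j + h ^ (q - m) ≤ 2 * h ^ q + 2 * h ^ m := by
  induction m with
  | zero =>
    have h1 := gw_even h q 0
    simp only [mul_zero, zero_add, range_one, sum_singleton, Nat.sub_zero, pow_zero, mul_one] at h1 ⊢
    rw [h1]
    omega
  | succ m ih =>
    have h1 := gw_odd h q m
    have h2 := gw_even h q (m + 1)
    have h3 := ih (by omega)
    rw [show 2 * (m + 1) + 1 = (2 * m + 1) + 1 + 1 by ring, sum_range_succ, sum_range_succ,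
      h1, show 2 * m + 1 + 1 = 2 * (m + 1) by ring, h2]
    have h4 : 2 * h ^ (q - (m + 1)) ≤ h ^ (q - m) := by
      have : q - m = (q - (m + 1)) + 1 := by omega
      rw [this, pow_succ, mul_comm]
      exact Nat.mul_le_mul_left _ hh
    have h5 : 2 * h ^ m ≤ h ^ (m + 1) := by
      rw [pow_succ, mul_comm]
      exact Nat.mul_le_mul_left _ hh
    omega

theorem sum_gw_le {h : ℕ} (hh : 2 ≤ h) (q : ℕ) :
    ∑ j ∈ range (2 * q + 1), gw h q j ≤ 4 * h ^ q := by
  have h1 := sum_gw hh q q le_rfl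
  omega

theorem succ_L {q s : ℕ} (hs : 1 ≤ s) : L q s + 1 = (2 * q + 1) * s := by
  unfold L
  have : 1 ≤ (2 * q + 1) * s := Nat.one_le_iff_ne_zero.2 (by positivity)
  omega

theorem L_mod {q s : ℕ} (hs : 1 ≤ s) : L q s % (2 * q + 1) = 2 * q := by
  obtain ⟨t, rfl⟩ := Nat.exists_eq_add_of_le hs
  have h1 : L q (1 + t) = (2 * q + 1) * t + 2 * q := by
    unfold L
    rw [mul_add, mul_one]
    omega
  rw [h1, Nat.mul_add_mod, Nat.mod_eq_of_lt (by omega)]

theorem wdf_L (h : ℕ) {q s : ℕ} (hs : 1 ≤ s) : wdf h q (L q s) = 1 := by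
  rw [wdf_eq, L_mod hs, gw_even, Nat.sub_self, pow_zero]

theorem sum_wd (h : ℕ) {q s : ℕ} (hs : 1 ≤ s) :
    (∑ k, wd h q s k) + 1 = s * ∑ j ∈ range (2 * q + 1), gw h q j := by
  have h1 : ∑ k, wd h q s k = ∑ k ∈ range (L q s), wdf h q k :=
    Fin.sum_univ_eq_sum_range (fun k => wdf h q k) (L q s)
  rw [← sum_groups (gw h q) (2 * q + 1) s, h1, ← succ_L hs, sum_range_succ]
  congr 1
  exact (wdf_L h hs).symm

theorem prod_wd (h : ℕ) {q s : ℕ} (hs : 1 ≤ s) :
    ∏ k, wd h q s k = (∏ j ∈ range (2 * q + 1), gw h q j) ^ s := by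
  have h1 : ∏ k, wd h q s k = ∏ k ∈ range (L q s), wdf h q k :=
    Fin.prod_univ_eq_prod_range (fun k => wdf h q k) (L q s)
  have h2 : wdf h q (L q s) = 1 := wdf_L h hs
  rw [← prod_groups (gw h q) (2 * q + 1) s, h1, ← succ_L hs, prod_range_succ]
  have h3 : gw h q (L q s % (2 * q + 1)) = 1 := h2
  rw [h3, mul_one]
  rfl

/-- (W5) -/
theorem card_Wd (h : ℕ) {q s : ℕ} (hs : 1 ≤ s) :
    Fintype.card (Wd (wd h q s)) = h ^ (q * (q + 1) * s) := by
  rw [Fintype.card_pi]
  simp only [Fintype.card_fin]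
  rw [prod_wd h hs, prod_gw h q q le_rfl, ← pow_mul]

/-- (W6) -/
theorem sum_wd_le {h : ℕ} (hh : 2 ≤ h) {q s : ℕ} (hs : 1 ≤ s) :
    (∑ k, wd h q s k) + 1 ≤ 4 * s * h ^ q := by
  rw [sum_wd h hs]
  refine (Nat.mul_le_mul_left s (sum_gw_le hh q)).trans (le_of_eq (by ring))

theorem card_odd (q : ℕ) :
    ∑ j ∈ range (2 * q + 1), (if j % 2 = 1 then 1 else 0) = q := by
  induction q with
  | zero => simp
  | succ q ih =>
    rw [show 2 * (q + 1) + 1 = (2 * q + 1) + 1 + 1 by ring, sum_range_succ, sum_range_succ, ih,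
      if_pos (by omega), if_neg (by omega)]

/-- (W2) -/
theorem card_UE (q s : ℕ) : (UE q s).card = q * s := by
  unfold UE ty
  rw [card_filter]
  have h1 := sum_groups (fun j => if j % 2 = 1 then 1 else 0) (2 * q + 1) s
  rw [card_odd, mul_comm s q] at h1
  rw [← h1]
  refine sum_congr rfl fun k _ => ?_
  simp only [decide_eq_true_eq]

theorem UE_union_VE (q s : ℕ) : (UE q s).card + (VE q s).card = (2 * q + 1) * s := by
  have h1 := card_filter_add_card_filter_not (s := range ((2 * q + 1) * s))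
    (fun e => ty q e = true)
  rw [card_range] at h1
  have h2 : VE q s = (range ((2 * q + 1) * s)).filter fun e => ¬ (ty q e = true) := by
    unfold VE
    refine filter_congr fun e _ => ?_
    simp
  rw [h2]
  exact h1

theorem card_VE (q s : ℕ) : (VE q s).card = (q + 1) * s := by
  have h1 := UE_union_VE q s
  rw [card_UE] at h1
  have h2 : (2 * q + 1) * s = q * s + (q + 1) * s := by ring
  omega

theorem wcov_single_le {h : ℕ} (hh : 1 ≤ h) (q s e : ℕ) :
    wcov (wd h q s) {e} ≤ (if e = 0 then 1 else wdf h q (e - 1)) * wdf h q e := by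
  unfold wcov
  have h1 : ∏ k ∈ (cov {e} : Finset (Fin (L q s))), wd h q s k =
      ∏ k ∈ (cov {e} : Finset (Fin (L q s))).map Fin.valEmbedding, wdf h q k := by
    rw [prod_map]
    rfl
  rw [h1]
  rcases Nat.eq_zero_or_pos e with he | he
  · subst he
    have h2 : (cov {0} : Finset (Fin (L q s))).map Fin.valEmbedding ⊆ {0} := by
      intro k hk
      rw [mem_map] at hk
      obtain ⟨i, hi, rfl⟩ := hk
      rw [mem_cov, mem_singleton, mem_singleton] at hi
      rw [mem_singleton]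
      show i.val = 0
      omega
    refine (prod_le_prod_of_subset_of_one_le' h2 fun k _ _ => one_le_wdf hh q k).trans ?_
    rw [prod_singleton, if_pos rfl, one_mul]
  · have h2 : (cov {e} : Finset (Fin (L q s))).map Fin.valEmbedding ⊆ {e - 1, e} := by
      intro k hk
      rw [mem_map] at hk
      obtain ⟨i, hi, rfl⟩ := hk
      rw [mem_cov, mem_singleton, mem_singleton] at hi
      rw [mem_insert, mem_singleton]
      show i.val = e - 1 ∨ i.val = e
      omega
    refine (prod_le_prod_of_subset_of_one_le' h2 fun k _ _ => one_le_wdf hh q k).trans ?_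
    rw [prod_pair (by omega), if_neg (by omega)]

theorem mod_pred {q e : ℕ} (he : e % (2 * q + 1) ≠ 0) :
    (e - 1) % (2 * q + 1) = e % (2 * q + 1) - 1 := by
  have h0 : e % (2 * q + 1) < 2 * q + 1 := Nat.mod_lt _ (by omega)
  have h1 : (2 * q + 1) * (e / (2 * q + 1)) + e % (2 * q + 1) = e := Nat.div_add_mod e (2 * q + 1)
  have h2 : e - 1 = (2 * q + 1) * (e / (2 * q + 1)) + (e % (2 * q + 1) - 1) := by omega
  rw [h2, Nat.mul_add_mod, Nat.mod_eq_of_lt (by omega)]

theorem mod_pred' {q e : ℕ} (h0 : e ≠ 0) (he : e % (2 * q + 1) = 0) :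
    (e - 1) % (2 * q + 1) = 2 * q := by
  have h1 : (2 * q + 1) * (e / (2 * q + 1)) + e % (2 * q + 1) = e := Nat.div_add_mod e (2 * q + 1)
  rw [he, add_zero] at h1
  have h3 : e / (2 * q + 1) ≠ 0 := by
    intro h
    rw [h, mul_zero] at h1
    exact h0 h1.symm
  obtain ⟨t, ht⟩ := Nat.exists_eq_succ_of_ne_zero h3
  have h2 : e - 1 = (2 * q + 1) * t + 2 * q := by
    rw [ht, Nat.mul_succ] at h1
    omega
  rw [h2, Nat.mul_add_mod, Nat.mod_eq_of_lt (by omega)]

/-- (W3) -/
theorem wcov_UE {h : ℕ} (hh : 1 ≤ h) (q s : ℕ) :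
    ∀ e ∈ UE q s, wcov (wd h q s) {e} ≤ h ^ (q + 1) := by
  intro e he
  unfold UE ty at he
  rw [mem_filter, decide_eq_true_eq] at he
  obtain ⟨_, he⟩ := he
  refine (wcov_single_le hh q s e).trans (le_of_eq ?_)
  have h0 : e % (2 * q + 1) < 2 * q + 1 := Nat.mod_lt _ (by omega)
  have h1 : e ≠ 0 := by
    rintro rfl
    simp at he
  rw [if_neg h1, wdf_eq, wdf_eq, mod_pred (by omega)]
  obtain ⟨i, hi⟩ : ∃ i, e % (2 * q + 1) = 2 * i + 1 := ⟨(e % (2 * q + 1)) / 2, by omega⟩
  rw [hi, Nat.add_sub_cancel, gw_even, gw_odd, ← pow_add]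
  congr 1
  omega

/-- (W4) -/
theorem wcov_VE {h : ℕ} (hh : 1 ≤ h) (q s : ℕ) :
    ∀ e ∈ VE q s, wcov (wd h q s) {e} ≤ h ^ q := by
  intro e he
  unfold VE ty at he
  rw [mem_filter, decide_eq_false_iff_not] at he
  obtain ⟨_, he⟩ := he
  refine (wcov_single_le hh q s e).trans (le_of_eq ?_)
  have h0 : e % (2 * q + 1) < 2 * q + 1 := Nat.mod_lt _ (by omega)
  obtain ⟨i, hi⟩ : ∃ i, e % (2 * q + 1) = 2 * i := ⟨(e % (2 * q + 1)) / 2, by omega⟩
  rcases Nat.eq_zero_or_pos i with hi0 | hi0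
  · subst hi0
    rw [mul_zero] at hi
    have h2 : wdf h q e = h ^ q := by
      rw [wdf_eq, hi]
      exact gw_even h q 0
    rw [h2]
    by_cases h1 : e = 0
    · rw [if_pos h1, one_mul]
    · rw [if_neg h1, wdf_eq, mod_pred' h1 hi, gw_even, Nat.sub_self, pow_zero, one_mul]
  · have h1 : e ≠ 0 := by
      rintro rfl
      simp at hi
      omega
    rw [if_neg h1, wdf_eq, wdf_eq, mod_pred (by omega), hi]
    obtain ⟨i', rfl⟩ := Nat.exists_eq_add_of_le hi0
    rw [show 2 * (0 + 1 + i') - 1 = 2 * i' + 1 by omega, gw_odd, gw_even, ← pow_add]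
    congr 1
    omega

/-- (W7) -/
theorem wd_eq_one (h q s : ℕ) (k : Fin (L q s)) (hk : ty q k.val = ty q (k.val + 1)) :
    wd h q s k = 1 := by
  have h0 : k.val % (2 * q + 1) < 2 * q + 1 := Nat.mod_lt _ (by omega)
  by_cases h1 : k.val % (2 * q + 1) = 2 * q
  · show wdf h q k.val = 1
    rw [wdf_eq, h1, gw_even, Nat.sub_self, pow_zero]
  · exfalso
    have h2 : (k.val + 1) % (2 * q + 1) = k.val % (2 * q + 1) + 1 := by
      rw [Nat.add_mod, Nat.mod_eq_of_lt (a := 1) (by omega), Nat.mod_eq_of_lt]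
      omega
    unfold ty at hk
    rw [h2] at hk
    have h3 := decide_eq_decide.1 hk
    omega

end Pool.Agent.Helper55.D3
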